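import Pool.Agent.W838.DC.Stm3
import Pool.Agent.W838.DC.Basic

/-! # From local to global (subtask DC-LG) -/

set_option autoImplicit false

namespace Pool.Agent.W978.DC

open Pool.Agent.W838.DC Pool.Agent.W838.DC.Sys

variable {V X : Type*} [AddCommGroup V] {σ : Sys V X}

/-- `s` is above `y`, the neighbour is in the region, no arrow ends at `s` -/
def Good (σ : Sys V X) (s : V) (y : X) : Prop := σ.Psi y s ∧ ∀ z, ¬ σ.Arr y z s

/-- the invariant -/
def Q (σ : Sys V X) (s : V) (y : X) : Prop :=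
  Good σ s y ∨ ∃ y', y = σ.r s y' ∧ σ.P y' ∧ Good σ s y' ∧ σ.RegUp y'

theorem ip_of_sub {a b : V} (ha : a ∈ σ.Φ) (hb : b ∈ σ.Φ) (h : a - b ∈ σ.Φ) : σ.ip a b = 1 := by
  have h1 := σ.ip_self _ h
  rw [σ.ip_sub, σ.ip_sub_right, σ.ip_sub_right, σ.ip_self a ha, σ.ip_self b hb, σ.ip_symm b a] at h1
  omega

theorem pos_refl {s b : V} (hs : s ∈ σ.S) (hb : b ∈ σ.Φ) (pb : 0 < σ.ht b) (hne : b ≠ s) :
    b - σ.ip b s • s ∈ σ.Φ ∧ 0 < σ.ht (b - σ.ip b s • s) := by
  obtain ⟨h1, h2⟩ := σ.S_sub s hs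
  have hm := σ.refl_mem s h1 b hb
  refine ⟨hm, ?_⟩
  have h3 := σ.ht_ne _ hm
  rw [map_sub, map_zsmul, h2] at h3 ⊢
  rcases σ.ip_pos hb h1 pb (by omega) hne with h | h | h <;> rw [h] at h3 ⊢ <;>
    simp only [smul_eq_mul] at h3 ⊢ <;> omega

/-- the lower part of a plane at a good vertex -/
theorem plane (hF2 : S_F2 σ) {s : V} (hs : s ∈ σ.S) {y : X} (hr : σ.RegUp y) (hg : Good σ s y)
    {g : V} (hRg : σ.R y g) (hip : σ.ip s g = -1) (hP : σ.P (σ.r g (σ.r s y))) :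
    Good σ s (σ.r g (σ.r s y)) ∧ σ.RegUp (σ.r g (σ.r s y)) := by
  obtain ⟨h1, h2⟩ := σ.S_sub s hs
  have hip' : σ.ip g s = -1 := by rw [σ.ip_symm]; exact hip
  have hgs : g + s ∈ σ.Φ := σ.add_mem hRg.1 h1 hip'
  have e1 : σ.r g (σ.r s y) = σ.r (g + s) (σ.r g y) := σ.r_conj_neg hRg.1 h1 hip' y
  have hip2 : σ.ip g (g + s) = 1 := by
    rw [σ.ip_add_right, σ.ip_self g hRg.1, hip']; norm_num
  have hR2 : σ.R (σ.r g y) (g + s) := by
    refine ⟨hgs, ?_, ?_⟩
    · rw [map_add]; have := hRg.2.1; omega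
    · rw [σ.lab_r_pos hRg.1 y hip2, map_add, add_sub_cancel_left]
      exact hg.1.1.2.2
  have hP1 : σ.P (σ.r g y) := σ.P_of_R hR2 (by rw [← e1]; exact hP)
  have hPg : σ.Psi y g := ⟨hRg, hP1⟩
  have hPg2 : σ.Psi (σ.r g y) (g + s) := ⟨hR2, by rw [← e1]; exact hP⟩
  have n1 : g ≠ s := by
    intro h
    rw [h, σ.ip_self s h1] at hip
    omega
  have n2 : ¬ σ.R y (g - s) := fun h => by
    have := ip_of_sub hRg.1 h1 h.1
    omega
  have g1 : Good σ s (σ.r g y) := hF2 y hr s hs hg.1 hg.2 g hPg n1 n2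
  have n3 : g + s ≠ s := by
    intro h
    have h3 : g = 0 := by
      have := congrArg (fun t => t - s) h
      simpa using this
    have := hRg.2.1
    rw [h3, map_zero] at this
    omega
  have n4 : ¬ σ.R (σ.r g y) (g + s - s) := fun h => by
    rw [add_sub_cancel_right] at h
    have h3 := h.2.2
    rw [σ.lab_r_self hRg.1, map_neg] at h3
    have := hRg.2.2
    omega
  have r1 : σ.RegUp (σ.r g y) := hr.step hPg
  have g2 : Good σ s (σ.r (g + s) (σ.r g y)) := hF2 _ r1 s hs g1.1 g1.2 _ hPg2 n3 n4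
  rw [e1]
  exact ⟨g2, r1.step hPg2⟩

theorem step (hF2 : S_F2 σ) {s : V} (hs : s ∈ σ.S) {y : X} (hr : σ.RegUp y) (hq : Q σ s y)
    {b : V} (hb : σ.Psi y b) : Q σ s (σ.r b y) := by
  obtain ⟨h1, h2⟩ := σ.S_sub s hs
  rcases hq with hg | ⟨y', rfl, hPy', hg, hr'⟩
  · by_cases hbs : b = s
    · subst hbs
      exact Or.inr ⟨y, rfl, σ.P_of_R hb.1 hb.2, hg, hr⟩
    by_cases hR : σ.R y (b - s)
    · have i1 : σ.ip b s = 1 := ip_of_sub hb.1.1 h1 hR.1
      have i2 : σ.ip s (b - s) = -1 := by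
        rw [σ.ip_sub_right, σ.ip_symm s b, i1, σ.ip_self s h1]; norm_num
      have i3 : σ.ip (b - s) s = -1 := by rw [σ.ip_symm]; exact i2
      have e0 : s + (b - s) = b := by abel
      have e1 : σ.r s (σ.r (b - s) (σ.r s y)) = σ.r b y := by
        rw [σ.r_conj_neg h1 hR.1 i2, e0, σ.r_r h1]
      have i4 : σ.ip s (s + (b - s)) = 1 := by
        rw [σ.ip_add_right, σ.ip_self s h1, i2]; norm_num
      have hR3 : σ.R (σ.r (b - s) (σ.r s y)) s := by
        refine ⟨h1, by omega, ?_⟩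
        rw [σ.lab_r_neg hR.1 _ i3, ← map_add, add_comm (b - s) s, σ.lab_r_pos h1 y i4, map_add,
          add_sub_cancel_left]
        exact hR.2.2
      have hP3 : σ.P (σ.r (b - s) (σ.r s y)) := σ.P_of_R hR3 (by rw [e1]; exact hb.2)
      obtain ⟨g1, r1⟩ := plane hF2 hs hr hg hR i2 hP3
      exact Or.inr ⟨_, e1.symm, hP3, g1, r1⟩
    · exact Or.inl (hF2 y hr s hs hg.1 hg.2 b hb hbs hR)
  · have hNs : σ.ht (σ.lab (σ.r s y') s) < 0 := by
      rw [σ.lab_r_self h1, map_neg]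
      have := hg.1.1.2.2
      omega
    have hbs : b ≠ s := by
      rintro rfl
      have := hb.1.2.2
      omega
    obtain ⟨m1, m2⟩ := pos_refl hs hb.1.1 hb.1.2.1 hbs
    set b' := b - σ.ip b s • s with hb'
    have hlab : σ.lab (σ.r s y') b = σ.lab y' b' := σ.lab_r s h1 y' b
    have hRb' : σ.R y' b' := ⟨m1, m2, by rw [← hlab]; exact hb.1.2.2⟩
    have ib' : σ.ip b' s = - σ.ip b s := by
      rw [hb', σ.ip_sub, σ.ip_zsmul, σ.ip_self s h1]; ring
    have eb : b' - σ.ip b' s • s = b := by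
      rw [ib', hb', neg_zsmul]; abel
    have e1 : σ.r s (σ.r b' y') = σ.r b (σ.r s y') := by
      rw [σ.r_conj h1 m1, eb]
    have hbs3 := σ.ip_pos hb.1.1 h1 hb.1.2.1 (by omega) hbs
    have hbs' : b' ≠ s := by
      intro h
      rw [h, σ.ip_self s h1] at ib'
      omega
    by_cases hA : 0 < σ.ht (σ.lab (σ.r b' y') s)
    · have hRs : σ.R (σ.r b' y') s := ⟨h1, by omega, hA⟩
      have hP1 : σ.P (σ.r b' y') := σ.P_of_R hRs (by rw [e1]; exact hb.2)
      have hPsi : σ.Psi y' b' := ⟨hRb', hP1⟩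
      have n1 : ¬ σ.R y' (b' - s) := by
        intro h
        have i1 := ip_of_sub m1 h1 h.1
        rw [σ.lab_r_pos m1 y' i1, ← map_sub] at hA
        have h3 := h.2.2
        have e3 : s - b' = -(b' - s) := by abel
        rw [e3, map_neg, map_neg] at hA
        omega
      have g1 : Good σ s (σ.r b' y') := hF2 y' hr' s hs hg.1 hg.2 b' hPsi hbs' n1
      exact Or.inr ⟨_, e1.symm, hP1, g1, hr'.step hPsi⟩
    · have hls := hg.1.1.2.2
      have hlb := hRb'.2.2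
      have i1 : σ.ip b' s = 1 := by
        rcases σ.ip_pos m1 h1 m2 (by omega) hbs' with h | h | h
        · rw [σ.lab_r_neg m1 y' h, map_add] at hA
          omega
        · rw [σ.lab_r_zero m1 y' h] at hA
          omega
        · exact h
      have i2 : σ.ip b s = -1 := by omega
      have i3 : σ.ip s b = -1 := by rw [σ.ip_symm]; exact i2
      have eb2 : b' = b + s := by
        rw [hb', i2, neg_one_zsmul]; abel
      have hlg : 0 < σ.ht (σ.lab y' b) := by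
        have h3 := σ.lab_ht_ne y' hb.1.1
        rw [σ.lab_r_pos m1 y' i1, eb2, map_add, map_sub, map_add] at hA
        omega
      have hRg : σ.R y' b := ⟨hb.1.1, hb.1.2.1, hlg⟩
      exact Or.inl (plane hF2 hs hr' hg hRg i3 hb.2).1

theorem lg (hF2 : S_F2 σ) : S_LG σ := by
  intro x hr s hs hPsi hA y hy
  have key : σ.RegUp y ∧ Q σ s y := by
    induction hy with
    | refl => exact ⟨hr, Or.inl ⟨hPsi, hA⟩⟩
    | tail _ h ih =>
      obtain ⟨a, ha, rfl⟩ := h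
      exact ⟨ih.1.step ha, step hF2 hs ih.1 ih.2 ha⟩
  obtain ⟨_, hg | ⟨y', rfl, hP, _, _⟩⟩ := key
  · exact hg.1.2
  · rw [σ.r_r (σ.S_sub s hs).1]
    exact hP

end Pool.Agent.W978.DC
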